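import Pool.Agent.MergeTree.Upper

/-!
# The intrinsic interleaving metric on merge trees with at most `n` leaves

All definitions are in `Pool/Agent/MergeTree/Defs.lean`; that the relation `IsShift t x y`
(meaning `y = i^t(x)`) is functional is `Pool.Agent.MTree.existsUnique_isShift` in
`Pool/Agent/MergeTree/Theory.lean`.

For `n ≥ 2` the pair of trees is: stars with `n` leaves, one leaf at height `0`, the other `n - 1`
leaves at height `h`, all merging at height `h + 2`; once with `h = 0` and once with `h = 3`.
Their interleaving distance is `1`, but every continuous path between them in `MT_n` has length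
at least `2` (and some such path has length `2`).
-/

set_option autoImplicit false

namespace Pool.Agent.Results.MP_4761b7_gt.IntrinsicIffOne

open Pool.Agent Pool.Agent.MT

/-- Let `n ≥ 1`. If `n = 1` then the intrinsic metric `(d̂_I)_n` equals `d_I` on `MT_n`. If `n ≥ 2`
then there are two classes in `MT_n` with `d_I = 1 < 2 = (d̂_I)_n`. -/
theorem result : ∀ n : ℕ, 1 ≤ n →
    (n = 1 → ∀ x ∈ MTn n, ∀ y ∈ MTn n, intrinsic n x y = dI x y) ∧
    (2 ≤ n → ∃ x ∈ MTn n, ∃ y ∈ MTn n, dI x y = 1 ∧ intrinsic n x y = 2) := by
  intro n _
  constructor
  · rintro rfl x hx y hy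
    exact intrinsic_one hx hy
  · intro hn
    exact exists_pair n hn

end Pool.Agent.Results.MP_4761b7_gt.IntrinsicIffOne
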